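import Pool.Agent.H37.Dsc.Ind

/-!
# Over which extensions the Sato-Tate law decides the Sato-Tate law

`K` is a number field, `A / K` an abelian variety, `G = ST(A)` its Sato-Tate group with Haar probability
measure `μ`, and `x_v ∈ G` an element of the class of the prime `v` of `K` (any element at the finitely
many exceptional primes).  The component group `Q` of `G` is a quotient of the absolute Galois group of
`K` (`Components`), and `π (x_v)` is in the class of the Frobenius elements at `v` (`Compatible`).  For
a number field `F ⊇ K` the Sato-Tate group of `A_F` is the union `C.groupOver F` of the components of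
`G` which belong to the absolute Galois group of `F`, and the class of `A_F` at a prime `w` of `F` over
`v` is contained in the class in `G` of `x_v ^ f`, `f` the residue degree (`classOver`).  `LawOver` is
the equidistribution of these classes for the Haar measure of `ST(A_F)`, with the class functions of `G`
as test functions.  It is Q1 for `A_F` if `ST(A_F) = G`, in particular for `F = K`, and for all `F` if
`G` is connected; in general it is a consequence of Q1 for `A_F`.

Q1 for `A` is often accessible over suitable extensions `F_k` of `K` only.  Let `F_k` (`k ∈ κ`) be any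
family of number fields which contain `K`, and `E ⊇ K` one more number field (for instance `E = K`).
When does the law over all `F_k` imply the law over `E`?  Let `fix_F (s)` be the number of the
embeddings over `K` of `F` into the algebraic closure of `K` which are fixed by `s`, the permutation
character of `F / K`.  We say that the family reaches `E` (`Reaches`) if for every class `c` of `Q` the
function `fix_E` is in the closure of the real span of the functions `fix_{F_k}` for the norm of `L¹`,
on the set of the elements `s` of the absolute Galois group of `K` with image in `c`; only the classes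
`c` are considered for which the component of `G` is not a single conjugacy class of `G` (`Large`).  The
coefficients may depend on `c`.

1. If `E` is reached, then the law over all `F_k` implies the law over `E`.  (So Q1 for all `A_{F_k}`
implies Q1 for `A`, if `K` is reached.)
2. This is sharp in a strong sense: there is one family of elements `x_v ∈ G`, compatible with the
components, such that for all number fields `E ⊇ K` at once the law holds over `E` if and only if `E` is
reached; in particular it holds over all `F_k`.  So nothing weaker than the condition can be sufficient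
for an argument which uses only the classes and their behaviour under base change, and the sets of
extensions of `K` over which the law can hold are exactly the closed ones.
3. For finitely many `F_k` the condition says that `fix_E` is a real linear combination of the
`fix_{F_k}` on every class.  For instance the law over one extension `F ≠ K` never decides the law
over `K` in this way, if `G` is connected and not trivial.
4. For Galois extensions `F_k ≠ K` such that the Galois groups of the `F_k` and of the field which
belongs to `Q` are independent, `K` is reached if and only if `∑ 1 / [F_k : K] = ∞`.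
-/

set_option autoImplicit false

namespace Pool.Agent.Results.MP_c481b3_nt.ExactDescent

open NumberField IsDedekindDomain Filter Topology MeasureTheory

section Definitions
variable {K : Type} [Field K] [NumberField K]

/-- The absolute Galois group of `K`. -/
abbrev GK (K : Type) [Field K] : Type := Gal(AlgebraicClosure K/K)

/-- `s` is a Frobenius element at the prime `v` of `K`: there is a maximal ideal `P` above `v` of the
ring of all algebraic integers with `s x ≡ x ^ N(v)` modulo `P` for all `x`. -/
def IsFrob (v : HeightOneSpectrum (𝓞 K)) (s : GK K) : Prop :=
  ∃ P : Ideal (𝓞 (AlgebraicClosure K)), P.IsMaximal ∧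
    P.comap (algebraMap (𝓞 K) (𝓞 (AlgebraicClosure K))) = v.asIdeal ∧
    ∀ x : 𝓞 (AlgebraicClosure K), s • x - x ^ Ideal.absNorm v.asIdeal ∈ P

/-- The average of `φ` over the primes of `F` of norm at most `N`. -/
noncomputable def avg {F : Type} [Field F] [NumberField F] (φ : HeightOneSpectrum (𝓞 F) → ℝ)
    (N : ℕ) : ℝ :=
  (∑ᶠ w : {w : HeightOneSpectrum (𝓞 F) // Ideal.absNorm w.asIdeal ≤ N}, φ w.1) /
    (Nat.card {w : HeightOneSpectrum (𝓞 F) // Ideal.absNorm w.asIdeal ≤ N} : ℝ)

/-- The absolute Galois group of `F` as a subgroup of the absolute Galois group of `K`, for one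
embedding of `F` into the algebraic closure of `K`. -/
noncomputable def galois (K : Type) [Field K] (F : Type) [Field F] [Algebra K F]
    [Algebra.IsAlgebraic K F] : Subgroup (GK K) :=
  (IsAlgClosed.lift : F →ₐ[K] AlgebraicClosure K).fieldRange.fixingSubgroup

/-- For elements `x v` at the primes `v` of `K` the element `x v ^ f` at the prime `w` of `F`, where `f`
is the residue degree of `w` over the prime `v` of `K` below `w`. -/
noncomputable def classOver {G : Type} [Group G] (x : HeightOneSpectrum (𝓞 K) → G) (F : Type)
    [Field F] [NumberField F] [Algebra K F] (w : HeightOneSpectrum (𝓞 F)) : G :=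
  x (w.under (𝓞 K)) ^ (w.under (𝓞 K)).asIdeal.inertiaDeg' w.asIdeal

/-- The action of the absolute Galois group of `K` on the embeddings over `K` of `F` into the algebraic
closure of `K`. -/
noncomputable def perm (K F : Type) [Field K] [Field F] [Algebra K F] :
    GK K →* Equiv.Perm (F →ₐ[K] AlgebraicClosure K) where
  toFun s :=
    { toFun := fun i => (s : AlgebraicClosure K →ₐ[K] AlgebraicClosure K).comp i
      invFun := fun i => ((s⁻¹ : GK K) : AlgebraicClosure K →ₐ[K] AlgebraicClosure K).comp i
      left_inv := fun i => AlgHom.ext fun x => s.symm_apply_apply (i x)
      right_inv := fun i => AlgHom.ext fun x => s.apply_symm_apply (i x) }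
  map_one' := Equiv.ext fun _ => AlgHom.ext fun _ => rfl
  map_mul' _ _ := Equiv.ext fun _ => AlgHom.ext fun _ => rfl

/-- The number of the fixed points of a permutation. -/
noncomputable def fixed {X : Type} (g : Equiv.Perm X) : ℝ := (Nat.card {i // g i = i} : ℝ)

/-- A finite quotient `Q` of the compact group `G` (its component group, or any finite quotient by an
open normal subgroup), with the projection `π`, and a continuous homomorphism `r` of the absolute
Galois group of `K` onto `Q`. -/
structure Components (K : Type) [Field K] (G : Type) [Group G] [TopologicalSpace G] where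
  /-- the finite quotient -/
  Q : Type
  [group : Group Q]
  [finite : Finite Q]
  /-- the projection of `G` -/
  π : G →* Q
  π_surjective : Function.Surjective π
  π_open : IsOpen (π.ker : Set G)
  /-- the projection of the Galois group -/
  r : GK K →* Q
  r_surjective : Function.Surjective r
  r_open : IsOpen (r.ker : Set (GK K))

attribute [instance] Components.group Components.finite

namespace Components

variable {G : Type} [Group G] [TopologicalSpace G] (C : Components K G)

/-- At almost all primes `v` the class of `π (x v)` is the class of the Frobenius elements at `v`. -/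
def Compatible (x : HeightOneSpectrum (𝓞 K) → G) : Prop :=
  ∀ᶠ v in cofinite, ∀ s : GK K, IsFrob v s → IsConj (C.π (x v)) (C.r s)

/-- The group over `F`: the components of `G` which belong to the absolute Galois group of `F`. -/
noncomputable def groupOver (F : Type) [Field F] [NumberField F] [Algebra K F] : Subgroup G :=
  ((galois K F).map C.r).comap C.π

/-- **The Sato-Tate law over `F`**: the classes over `F` are equidistributed in the space of the
conjugacy classes of `G`, for the Haar measure of the group over `F`, with the primes of `F` ordered by
the norm. -/
def LawOver [MeasurableSpace G] (μ : Measure G) (x : HeightOneSpectrum (𝓞 K) → G) (F : Type)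
    [Field F] [NumberField F] [Algebra K F] : Prop :=
  ∀ f : G → ℝ, Continuous f → (∀ a b, f (b * a * b⁻¹) = f a) →
    Tendsto (avg fun w : HeightOneSpectrum (𝓞 F) => f (classOver x F w)) atTop
      (𝓝 (⨍ g in (C.groupOver F : Set G), f g ∂μ))

/-- The component of `G` over `q` contains two elements which are not conjugate in `G`. -/
def Large (q : C.Q) : Prop := ∃ a b : G, C.π a = q ∧ C.π b = q ∧ ¬ IsConj a b

variable {κ : Type} (F : κ → Type) [∀ k, Field (F k)] [∀ k, Algebra K (F k)]

/-- The finite group `Q × ∏_{k ∈ T} Perm (embeddings of F k) × Perm (embeddings of E)`. -/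
abbrev Ambient (T : Finset κ) (E : Type) [Field E] [Algebra K E] : Type :=
  C.Q × ((∀ k : T, Equiv.Perm (F k →ₐ[K] AlgebraicClosure K)) ×
    Equiv.Perm (E →ₐ[K] AlgebraicClosure K))

/-- The homomorphism `s ↦ (r s, (perm K (F k) s)_k, perm K E s)`. -/
noncomputable def hom (T : Finset κ) (E : Type) [Field E] [Algebra K E] :
    GK K →* C.Ambient F T E :=
  C.r.prod ((MonoidHom.pi fun k : T => perm K (F k)).prod (perm K E))

/-- The Galois group over `K` of the compositum of the normal closures of the `F k`, `k ∈ T`, of the
normal closure of `E` and of the field which belongs to `Q`: the set of all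
`(r s, (perm K (F k) s)_k, perm K E s)`. -/
def galoisGroup (T : Finset κ) (E : Type) [Field E] [Algebra K E] : Set (C.Ambient F T E) :=
  Set.range (C.hom F T E)

open Classical in
/-- The function which is `|∑_{k ∈ T} c_k fix_{F k} - fix_E|` at the elements with image conjugate to
`q` in `Q`, and `0` at the other elements. -/
noncomputable def value (T : Finset κ) (c : κ → ℝ) (E : Type) [Field E] [Algebra K E] (q : C.Q)
    (g : C.Ambient F T E) : ℝ :=
  if IsConj q g.1 then |∑ k : T, c k * fixed (g.2.1 k) - fixed g.2.2| else 0

/-- The mean value over the finite Galois group of the function which is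
`|∑_{k ∈ T} c_k fix_{F k} - fix_E|` at the elements with image conjugate to `q` in `Q`, and `0` at the
other elements. -/
noncomputable def gap (T : Finset κ) (c : κ → ℝ) (E : Type) [Field E] [Algebra K E] (q : C.Q) : ℝ :=
  (∑ᶠ g : C.galoisGroup F T E, C.value F T c E q g) / (Nat.card (C.galoisGroup F T E) : ℝ)

/-- **The family `F` reaches `E`**: for all `q` such that the component over `q` is not one conjugacy
class, `fix_E` is a limit in the mean of real linear combinations of the `fix_{F k}`, on the elements
with image conjugate to `q`. -/
def Reaches (E : Type) [Field E] [Algebra K E] : Prop :=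
  ∀ q : C.Q, C.Large q → ∀ ε : ℝ, 0 < ε → ∃ (T : Finset κ) (c : κ → ℝ), C.gap F T c E q < ε

/-- For all elements compatible with the components: the law over all `F k` implies the law over all
number fields `E ⊇ K` which are reached by the family. -/
def Descent [∀ k, NumberField (F k)] [MeasurableSpace G] (μ : Measure G) : Prop :=
  ∀ x : HeightOneSpectrum (𝓞 K) → G, C.Compatible x → (∀ k, C.LawOver μ x (F k)) →
    ∀ (E : Type) [Field E] [NumberField E] [Algebra K E], C.Reaches F E → C.LawOver μ x E

/-- There is one family of elements, compatible with the components, such that for all number fields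
`E ⊇ K` the law over `E` holds if and only if `E` is reached by the family `F`. -/
def Sharp [MeasurableSpace G] (μ : Measure G) : Prop :=
  ∃ x : HeightOneSpectrum (𝓞 K) → G, C.Compatible x ∧
    ∀ (E : Type) [Field E] [NumberField E] [Algebra K E], C.LawOver μ x E ↔ C.Reaches F E

/-- For all `q` such that the component over `q` is not one conjugacy class, `fix_E` is a real linear
combination of the `fix_{F k}` on the set of all `s` with image conjugate to `q`. -/
def Spans [Fintype κ] (E : Type) [Field E] [Algebra K E] : Prop :=
  ∀ q : C.Q, C.Large q → ∃ c : κ → ℝ, ∀ s : GK K, IsConj q (C.r s) →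
    ∑ k, c k * fixed (perm K (F k) s) = fixed (perm K E s)

/-- The `F k ≠ K` are Galois over `K`, and independent of each other and of the field which belongs to
`Q`: the order of the Galois group of the compositum is the product of the orders. -/
def Independent : Prop :=
  (∀ k, IsGalois K (F k) ∧ 1 < Module.finrank K (F k)) ∧
    ∀ T : Finset κ, Nat.card (C.r.prod (MonoidHom.pi fun k : T => perm K (F k))).range =
      Nat.card C.Q * ∏ k ∈ T, Module.finrank K (F k)

end Components

end Definitions

section Bridge
variable {K : Type} [Field K] [NumberField K] {G : Type} [Group G] [TopologicalSpace G]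
  (C : Components K G)

/-- the datum of the library -/
noncomputable def toDatum (x : HeightOneSpectrum (𝓞 K) → G) (hx : C.Compatible x) :
    Pool.Agent.Helper644_ST.Datum K G :=
  Pool.Agent.H37.Dsc.mkDatum C.π C.π_surjective C.π_open C.r C.r_surjective C.r_open x hx

theorem lawOver_iff [MeasurableSpace G] (μ : Measure G) (x : HeightOneSpectrum (𝓞 K) → G)
    (hx : C.Compatible x) (F : Type) [Field F] [NumberField F] [Algebra K F] :
    C.LawOver μ x F ↔ (toDatum C x hx).SatoTateOver F μ := by
  constructor
  · intro h f hf
    have h1 := (h f hf.continuous fun a b => hf.conj a b).sub_const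
      (⨍ g in (C.groupOver F : Set G), f g ∂μ)
    rw [sub_self] at h1
    exact h1
  · intro h f hf hcl
    have h1 : Tendsto (fun N => (avg fun w : HeightOneSpectrum (𝓞 F) => f (classOver x F w)) N -
        ⨍ g in (C.groupOver F : Set G), f g ∂μ) atTop (𝓝 0) := h f ⟨hf, fun a b => hcl a b⟩
    exact tendsto_sub_nhds_zero_iff.1 h1

theorem reaches_iff {κ : Type} (F : κ → Type) [∀ k, Field (F k)] [∀ k, NumberField (F k)]
    [∀ k, Algebra K (F k)] (σ : HeightOneSpectrum (𝓞 K) → GK K)
    (hσ : ∀ v, Pool.Agent.W401.Cheb.IsFrob v (σ v)) (E : Type) [Field E] [NumberField E]
    [Algebra K E] : C.Reaches F E ↔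
      ∀ q, Pool.Agent.H37.Dsc.Large C.π q → Pool.Agent.H37.Dsc.Near C.r F σ E q := by
  classical
  have key : ∀ (q : C.Q) (T : Finset κ) (c : κ → ℝ), Pool.Agent.H37.Dsc.HasMean σ
      (fun s => if IsConj q (C.r s) then
        |∑ k ∈ T, c k * (Pool.Agent.Helper644_ST.fixc K (F k) s : ℝ) -
          (Pool.Agent.Helper644_ST.fixc K E s : ℝ)| else 0) (C.gap F T c E q) := by
    intro q T c
    have h1 := Pool.Agent.H37.Dsc.val_mean C.r C.r_open (fun k : T => F k) E σ hσ q
      (fun k => c k)
    have h2 : (fun s => Pool.Agent.H37.Dsc.val (K := K) (fun k : T => F k) E q (fun k => c k)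
        (Pool.Agent.H37.Dsc.joint C.r (fun k : T => F k) E s)) = fun s =>
        if IsConj q (C.r s) then
        |∑ k ∈ T, c k * (Pool.Agent.Helper644_ST.fixc K (F k) s : ℝ) -
          (Pool.Agent.Helper644_ST.fixc K E s : ℝ)| else 0 := by
      funext s
      unfold Pool.Agent.H37.Dsc.val
      rw [← Finset.sum_coe_sort T]
      rfl
    rw [h2] at h1
    exact h1
  constructor
  · intro h q hq ε hε
    obtain ⟨T, c, hc⟩ := h q hq ε hε
    exact ⟨T, c, _, hc, key q T c⟩
  · intro h q hq ε hε
    obtain ⟨T, c, M, hM, hmean⟩ := h q hq ε hε
    refine ⟨T, c, ?_⟩
    rw [← tendsto_nhds_unique hmean (key q T c)]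
    exact hM

end Bridge

/-- **Exact descent of the Sato-Tate law.**

Let `K` be a number field, `G` a compact group with Haar probability measure `μ` and finite quotient `Q`
as in `Components`, and let `F k` (`k ∈ κ`) be any family of number fields which contain `K`.

1. If the law holds over all `F k` for elements `x v ∈ G` compatible with the components, then it holds
over all number fields `E ⊇ K` which are reached by the family.
2. Let `G` be Hausdorff with a countable base (for instance a compact Lie group). There are elements
`x v ∈ G` compatible with the components such that for all number fields `E ⊇ K` the law holds over `E`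
if and only if `E` is reached by the family.
3. A finite family reaches `E` if and only if for all `q` such that the component over `q` is not one
conjugacy class, there are real numbers `c k` with `∑ c_k fix_{F k} (s) = fix_E (s)` for all `s` with
image conjugate to `q`.
4. Let the `F k ≠ K` be Galois over `K` and independent of each other and of the field which belongs to
`Q`, and let some component of `G` not be one conjugacy class. The family reaches `K` if and only if
`∑ 1 / [F k : K] = ∞`. -/
theorem result (K : Type) [Field K] [NumberField K] (G : Type) [Group G] [TopologicalSpace G]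
    [IsTopologicalGroup G] [CompactSpace G] [MeasurableSpace G] [BorelSpace G] (μ : Measure G)
    [IsProbabilityMeasure μ] [μ.IsHaarMeasure] (C : Components K G) (κ : Type) (F : κ → Type)
    [∀ k, Field (F k)] [∀ k, NumberField (F k)] [∀ k, Algebra K (F k)] :
    C.Descent F μ ∧
    (T2Space G → SecondCountableTopology G → C.Sharp F μ) ∧
    (∀ [Fintype κ] (E : Type) [Field E] [NumberField E] [Algebra K E],
      C.Reaches F E ↔ C.Spans F E) ∧
    (C.Independent F → (∃ q, C.Large q) →
      (C.Reaches F K ↔ ¬ Summable fun k => (1 : ℝ) / (Module.finrank K (F k) : ℝ))) := by
  choose σ hσ using Pool.Agent.W540.BE.exists_isFrob (F := K)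
  refine ⟨?_, ?_, ?_, ?_⟩
  · intro x hx hF E _ _ _ hE
    rw [lawOver_iff C μ x hx]
    refine Pool.Agent.H37.Dsc.suff μ (toDatum C x hx) σ hσ F E
      (fun k => (lawOver_iff C μ x hx (F k)).1 (hF k)) ?_
    exact (reaches_iff C F σ hσ E).1 hE
  · intro _ _
    obtain ⟨x, hx, h⟩ := Pool.Agent.H37.Dsc.nec μ C.π C.π_surjective C.π_open C.r
      C.r_surjective C.r_open F σ hσ
    refine ⟨x, hx, fun E _ _ _ => ?_⟩
    rw [lawOver_iff C μ x hx, reaches_iff C F σ hσ E]
    exact h E
  · intro _ E _ _ _
    rw [reaches_iff C F σ hσ E]
    refine forall_congr' fun q => forall_congr' fun _ => ?_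
    exact Pool.Agent.H37.Dsc.near_finite C.r C.r_open F E σ hσ q
  · rintro ⟨hgal, hind⟩ hlarge
    have : ∀ k, IsGalois K (F k) := fun k => (hgal k).1
    rw [reaches_iff C F σ hσ K]
    have h1 : ∀ q, Pool.Agent.H37.Dsc.Near C.r F σ K q ↔
        ¬ Summable fun k => (1 : ℝ) / (Module.finrank K (F k) : ℝ) := fun q =>
      Pool.Agent.H37.Dsc.near_ind C.r C.r_open F (fun k => (hgal k).2) hind σ hσ q
    constructor
    · intro h
      obtain ⟨q, hq⟩ := hlarge
      exact (h1 q).1 (h q hq)
    · intro h q _
      exact (h1 q).2 h

end Pool.Agent.Results.MP_c481b3_nt.ExactDescent
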