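import Pool.Agent.H50.FC.Four

/-!
# Sign patterns of the traces of Frobenius of four elliptic curves

Let `E_0, E_1, E_2, E_3` be elliptic curves over a number field `K` without complex multiplication, pairwise not
isogenous over any extension of `K` (also not up to twists). The Sato-Tate conjecture for the abelian fourfold
`E_0 × E_1 × E_2 × E_3` says that the normalised traces are independent; it is not known, already for three curves.
In particular each of the sixteen sign patterns of `(a_v(E_0), …, a_v(E_3))` should have density `1/16`. We show: each
of the sixteen patterns has lower Dirichlet density at least `1/1900`; in particular each pattern of signs occurs for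
infinitely many primes.

The structure `Quadruple` lists what is used, all of it is known (for example) over `ℚ`: the `L`-functions of
`Sym^a E_i × Sym^b E_j`, of `E_i × E_j × Sym^c E_k` and `Sym² E_i × E_j × Sym^c E_k`, and of `E_i × E_j × E_k × E_l`,
`Sym² E_i × E_j × E_k × E_l`, `Sym² E_i × Sym² E_j × E_k × E_l` are analytic and not zero at `s = 1` (Newton-Thorne:
all symmetric powers are cuspidal; Ramakrishnan: `E_i × E_j` is cuspidal on `GL_4`; Kim-Shahidi: `Sym² E_i × E_j` is
cuspidal on `GL_6`; Jacquet, Piatetski-Shapiro, Shalika: Rankin-Selberg `L`-functions).

Proof: linear programming. From the listed `L`-functions one knows the mean value of every function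
`∑ G(x_i, x_j) + ∑ H(x_k) x_i x_j + ∑ L(x_k) (x_i² - 1) x_j + a x_0 x_1 x_2 x_3 + b ∑ (x_i² - 1) x_j x_k x_l +
c ∑ (x_i² - 1) (x_j² - 1) x_k x_l` of the normalised traces, `G`, `H`, `L` piecewise continuous. We give such a
function (with `G`, `H`, `L` piecewise quadratic, with breaks only at `0`) that is at most `1` if all the `x_i` are
positive, at most `0` if not, and has mean value larger than `1/1900`. The inequalities are reduced to values at the
control points of the parabolas `(x, x²)` over three cells in each variable (`16 * 7 ^ 4` integer inequalities,
checked in the kernel).

Remarks. The products `Sym² E_i × E_j` on `GL_6` are needed: the mean values without them are compatible with the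
density `0` for a pattern, by a numerical computation. For five curves nothing beyond functions of four of the
five traces is known, and these mean values are compatible with the joint density `1 - ∏ sign x_i` (times the product
of the Sato-Tate measures) for which sixteen of the thirty-two patterns do not occur. So four is the limit of this
information.
-/

set_option autoImplicit false

namespace Pool.Agent.Results.MP_c481b3_nt.FourCurvesSignPatterns

open NumberField IsDedekindDomain Pool.Agent.H50.FC
open Pool.Agent.N859.G4 (PL lowerDensity)

/-- **Sign patterns of four elliptic curves.** -/
theorem result {K : Type*} [Field K] [NumberField K] {S : Finset (HeightOneSpectrum (𝓞 K))}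
    {α : Fin 4 → PL S → ℂ} (h : Quadruple α) (e : Fin 4 → ℝ) (he : ∀ i, e i = 1 ∨ e i = -1) :
    1 / 1900 ≤ lowerDensity (fun v => ∀ i, 0 < e i * (α i v).re) :=
  main h e he

end Pool.Agent.Results.MP_c481b3_nt.FourCurvesSignPatterns
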