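import Pool.Agent.H46.SL.SysR

/-!
# The law of the iterated logarithm in the Sato–Tate law of almost all products of hyperelliptic Jacobians

Let `g 1, ..., g r` be integers `≥ 0`.  For integers `m q j` (`q = 1, ..., r`, `j = 0, ..., 2 g q`) let `A_m` be the product of the
Jacobians of the hyperelliptic curves `C_q : Y ^ 2 = X ^ (2 g q + 1) + m q (2 g q) X ^ (2 g q) + ... + m q 0` of genus `g q` over `ℚ`.
At an odd prime `p` for which all the polynomials are separable modulo `p` all the curves have good reduction, and the conjugacy class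
`x_p` of `USp(2 g 1) × ... × USp(2 g r)` is given by the normalised `L`-polynomials
`det (1 - T x_p^(q)) = ∑ a_n^(q)(p) T ^ n`, `∑ a_n^(q)(p) √p ^ n T ^ n = exp (∑ (#C_q(F_{p ^ s}) - p ^ s - 1) T ^ s / s)`.

The test functions are the linear combinations `P = ∑ c t ∏ a^(q)_{i t q j}` of monomials in the coefficients `a_n^(q)` which have
the degree `∑ i t q j ≤ g q` in the coefficients of the curve number `q`, for all `q`.  These are all the class functions
on `USp(2 g 1) × ... × USp(2 g r)` which are spanned by the products of the irreducible characters with highest weights of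
size `≤ g q`.

The integral of `∏ a_{i_j}` over `USp(2g)`, for `∑ i_j ≤ 2 g + 1`, is (up to the sign `(-1) ^ (∑ i_j)`, which is `1` if it is not
zero) the multiplicity of the trivial representation in the product of the exterior powers `Λ ^ {i_j}` of the standard
representation, which is the number of the symmetric matrices with entries in `ℕ`, even entries on the diagonal and row sums `i_j`.
-/

set_option autoImplicit false

namespace Pool.Agent.Results.MP_c481b3_nt.IteratedLogarithm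

open Finset

open Classical in
/-- The number of the solutions of `Y ^ 2 = X ^ (2 g + 1) + m (2 g) X ^ (2 g) + ... + m 0` in the field with `p ^ s` elements: the
number of the points of the curve over `F_{p ^ s}`, the point at infinity not included (`p` is a prime, `s ≥ 1`). -/
noncomputable def points {g : ℕ} (p s : ℕ) (m : Fin (2 * g + 1) → ℤ) : ℕ :=
  if h : p.Prime then
    haveI : Fact p.Prime := ⟨h⟩
    Nat.card {P : GaloisField p s × GaloisField p s //
      P.2 ^ 2 = P.1 ^ (2 * g + 1) + ∑ j, (m j : GaloisField p s) * P.1 ^ (j : ℕ)}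
  else 0

/-- The coefficients of the power series `exp (∑ T s X ^ s / s)`: `c 0 = 1` and `n * c n = ∑ c (n - s) * T s`, the sum over
`s = 1, ..., n`. -/
noncomputable def expCoeff (T : ℕ → ℝ) : ℕ → ℝ
  | 0 => 1
  | n + 1 => (∑ s : Fin (n + 1), expCoeff T (n - s) * T (s + 1)) / (n + 1)
termination_by n => n
decreasing_by omega

/-- The coefficient `a_n(p)` of `T ^ n` of the normalised `L`-polynomial `det (1 - T x_p)` at the prime `p` of the Jacobian of the
curve `C : Y ^ 2 = X ^ (2 g + 1) + m (2 g) X ^ (2 g) + ... + m 0`: the coefficient of `T ^ n` in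
`exp (∑ (#C(F_{p ^ s}) - p ^ s - 1) T ^ s / s)` divided by `√p ^ n`. -/
noncomputable def coef {g : ℕ} (p n : ℕ) (m : Fin (2 * g + 1) → ℤ) : ℝ :=
  expCoeff (fun s => (points p s m : ℝ) - (p : ℝ) ^ s) n / (Real.sqrt p) ^ n

/-- `p` is odd and `X ^ (2 g + 1) + m (2 g) X ^ (2 g) + ... + m 0` is separable modulo `p`, so that the curve
`Y ^ 2 = X ^ (2 g + 1) + m (2 g) X ^ (2 g) + ... + m 0` has good reduction at `p`. -/
def Good {g : ℕ} (p : ℕ) (m : Fin (2 * g + 1) → ℤ) : Prop :=
  p ≠ 2 ∧ (Polynomial.X ^ (2 * g + 1) +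
    ∑ j, Polynomial.C (m j : ZMod p) * Polynomial.X ^ (j : ℕ) : Polynomial (ZMod p)).Separable

/-- The number of the symmetric matrices with entries in `ℕ`, even entries on the diagonal and row sums `i 0, i 1, ...`: for
`∑ i j ≤ 2 g + 1` this is the integral of the product of the coefficients of `T ^ (i j)` of `det (1 - T x)` over `USp(2g)`. -/
noncomputable def haar {l : ℕ} (i : Fin l → ℕ) : ℕ :=
  Nat.card {S : Matrix (Fin l) (Fin l) ℕ // (∀ j k, S j k = S k j) ∧ (∀ j, Even (S j j)) ∧ ∀ j, ∑ k, S j k = i j}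

variable {r k : ℕ} {g : Fin r → ℕ}

/-- The value `P(x_p)` at the prime `p` of the test function `P = ∑ c t ∏ a^(q)_{i t q j}` (the product over all `q` and `j`). -/
noncomputable def value (c : Fin k → ℝ) (i : Fin k → (q : Fin r) → Fin (g q) → ℕ) (p : ℕ)
    (m : (q : Fin r) → Fin (2 * g q + 1) → ℤ) : ℝ :=
  ∑ t, c t * ∏ q, ∏ j, coef p (i t q j) (m q)

/-- The mean of the test function `P = ∑ c t ∏ a^(q)_{i t q j}` over `USp(2 g 1) × ... × USp(2 g r)`. -/
noncomputable def mean (c : Fin k → ℝ) (i : Fin k → (q : Fin r) → Fin (g q) → ℕ) : ℝ :=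
  ∑ t, c t * ∏ q, (haar (i t q) : ℝ)

/-- The variance of the test function `P = ∑ c t ∏ a^(q)_{i t q j}` over `USp(2 g 1) × ... × USp(2 g r)`: the mean of the square,
the exponents of a product of two monomials being put one after the other, minus the square of the mean. -/
noncomputable def variance (c : Fin k → ℝ) (i : Fin k → (q : Fin r) → Fin (g q) → ℕ) : ℝ :=
  ∑ t, ∑ s, c t * c s * ∏ q, (haar (Fin.append (i t q) (i s q)) : ℝ) - mean c i ^ 2

open Classical in
/-- The number of the primes `p ≤ y` in the set `S`. -/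
noncomputable def count (S : Set ℕ) (y : ℕ) : ℕ := ((range (y + 1)).filter (fun p => p.Prime ∧ p ∈ S)).card

open Classical in
/-- The sum of `P(x_p) - mean P` over the primes `p ≤ y` in `S` at which all the curves have good reduction. -/
noncomputable def deviation (c : Fin k → ℝ) (i : Fin k → (q : Fin r) → Fin (g q) → ℕ) (S : Set ℕ) (y : ℕ)
    (m : (q : Fin r) → Fin (2 * g q + 1) → ℤ) : ℝ :=
  ∑ p ∈ (range (y + 1)).filter (fun p => p.Prime ∧ p ∈ S ∧ ∀ q, Good p (m q)), (value c i p m - mean c i)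

/-- The function `√(2 V N log log N)` of the law of the iterated logarithm, for `N = count S y` and the variance `V` of `P`. -/
noncomputable def bound (c : Fin k → ℝ) (i : Fin k → (q : Fin r) → Fin (g q) → ℕ) (S : Set ℕ) (y : ℕ) : ℝ :=
  √(2 * variance c i * count S y * Real.log (Real.log (count S y)))

/-- The law of the iterated logarithm up to `x`: the deviation is at most `(1 + δ) √(2 V N log log N)`, `N = count S y`, for all
`y ≤ x` with `count S y ≥ N₀`, and is at least `(1 - δ) √(2 V N log log N)` for some `y ≤ x` with `N ≥ (count S x) ^ (1 - δ)`, and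
is at most `-(1 - δ) √(2 V N log log N)` for some such `y`. -/
def LIL (c : Fin k → ℝ) (i : Fin k → (q : Fin r) → Fin (g q) → ℕ) (δ N₀ : ℝ) (S : Set ℕ) (x : ℕ)
    (m : (q : Fin r) → Fin (2 * g q + 1) → ℤ) : Prop :=
  (∀ y ≤ x, N₀ ≤ count S y → |deviation c i S y m| ≤ (1 + δ) * bound c i S y) ∧
  (∃ y ≤ x, (count S x : ℝ) ^ (1 - δ) ≤ count S y ∧ (1 - δ) * bound c i S y ≤ deviation c i S y m) ∧
  (∃ y ≤ x, (count S x : ℝ) ^ (1 - δ) ≤ count S y ∧ deviation c i S y m ≤ -((1 - δ) * bound c i S y))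

lemma card_affine {F : Type} [Field F] [Fintype F] [DecidableEq F] (hchar : ringChar F ≠ 2) (f : F → F) :
    (Nat.card {P : F × F // P.2 ^ 2 = f P.1} : ℝ) = (Fintype.card F : ℝ) + ∑ x : F, (quadraticChar F (f x) : ℝ) := by
  classical
  have h1 : Nat.card {P : F × F // P.2 ^ 2 = f P.1} = ∑ x : F, Nat.card {y : F // y ^ 2 = f x} := by
    rw [← Nat.card_sigma]
    refine Nat.card_congr ⟨fun P => ⟨P.1.1, ⟨P.1.2, P.2⟩⟩, fun P => ⟨(P.1, P.2.1), P.2.2⟩, fun _ => rfl, fun _ => rfl⟩
  have h2 : ∀ x : F, ((Nat.card {y : F // y ^ 2 = f x} : ℕ) : ℤ) = quadraticChar F (f x) + 1 := by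
    intro x
    rw [← quadraticChar_card_sqrts hchar (f x)]
    congr 1
    rw [Nat.card_eq_fintype_card, Fintype.card_subtype]
    congr 1
    ext y
    simp
  rw [h1]
  push_cast
  have h3 : ∀ x : F, ((Nat.card {y : F // y ^ 2 = f x} : ℕ) : ℝ) = (quadraticChar F (f x) : ℝ) + 1 := by
    intro x
    have := h2 x
    exact_mod_cast this
  rw [sum_congr rfl (fun x _ => h3 x), sum_add_distrib, sum_const, card_univ, nsmul_eq_mul, mul_one]
  ring

lemma points_eq {g : ℕ} (p : ℕ) [Fact p.Prime] (hp2 : p ≠ 2) (s : ℕ) (hs : 1 ≤ s) (m : Fin (2 * g + 1) → ℤ) :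
    (points p s m : ℝ) - (p : ℝ) ^ s =
      Pool.Agent.H341R2.Sharp.T (Q282.HL.mpol (2 * g + 1) (fun j => (m j : ZMod p))) s := by
  classical
  have hp : p.Prime := Fact.out
  have hcharF : ringChar (ZMod p) ≠ 2 := by
    rw [ZMod.ringChar_zmod_n]
    exact hp2
  let _ : Fintype (GaloisField p s) := Fintype.ofFinite _
  have hfr : Module.finrank (ZMod p) (GaloisField p s) = s := GaloisField.finrank p (by omega)
  have hcard : (Fintype.card (GaloisField p s) : ℝ) = (p : ℝ) ^ s := by
    rw [Module.card_eq_pow_finrank (K := ZMod p) (V := GaloisField p s), hfr, ZMod.card]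
    push_cast
    rfl
  have hcharE : ringChar (GaloisField p s) ≠ 2 := by
    rwa [← Algebra.ringChar_eq (ZMod p) (GaloisField p s)]
  have h4 := Pool.Agent.H341R2.Sharp.T_eq_sum (E := GaloisField p s) hcharF
    (Q282.HL.mpol (2 * g + 1) (fun j => (m j : ZMod p)))
  rw [hfr] at h4
  unfold points
  rw [dif_pos hp, card_affine hcharE (fun x => x ^ (2 * g + 1) + ∑ j, (m j : GaloisField p s) * x ^ (j : ℕ)), hcard,
    add_sub_cancel_left, h4]
  push_cast
  refine sum_congr rfl fun x _ => ?_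
  congr 2
  unfold Q282.HL.mpol Q282.HL.low
  simp only [map_add, map_pow, Polynomial.aeval_X, map_sum, map_mul, map_intCast]

lemma expCoeff_eq {g : ℕ} (p : ℕ) [Fact p.Prime] (hp2 : p ≠ 2) (m : Fin (2 * g + 1) → ℤ) (n : ℕ) :
    expCoeff (fun s => (points p s m : ℝ) - (p : ℝ) ^ s) n =
      Pool.Agent.H341R2.Sharp.A (Q282.HL.mpol (2 * g + 1) (fun j => (m j : ZMod p))) n := by
  induction n using Nat.strong_induction_on with
  | _ n ih =>
    rcases n with _ | n
    · rw [expCoeff, Pool.Agent.H341R2.Sharp.A_zero]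
      simp
    · have h1 := Pool.Agent.H341R2.Sharp.n_mul_A (Q282.HL.mpol (2 * g + 1) (fun j => (m j : ZMod p))) (n + 1)
      have h2 : ((n : ℝ) + 1) * (Pool.Agent.H341R2.Sharp.A (Q282.HL.mpol (2 * g + 1) (fun j => (m j : ZMod p))) (n + 1) : ℝ) =
          ∑ s ∈ Icc 1 (n + 1), (Pool.Agent.H341R2.Sharp.A (Q282.HL.mpol (2 * g + 1) (fun j => (m j : ZMod p))) (n + 1 - s) : ℝ) *
            Pool.Agent.H341R2.Sharp.T (Q282.HL.mpol (2 * g + 1) (fun j => (m j : ZMod p))) s := by
        exact_mod_cast h1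
      have hn : ((n : ℝ) + 1) ≠ 0 := by positivity
      have h3 : ∀ F : ℕ → ℝ, ∑ s ∈ Icc 1 (n + 1), F s = ∑ s : Fin (n + 1), F (s + 1) := by
        intro F
        rw [Fin.sum_univ_eq_sum_range (fun s => F (s + 1)) (n + 1)]
        symm
        refine sum_nbij' (fun s => s + 1) (fun s => s - 1) ?_ ?_ ?_ ?_ ?_
        · intro s hs
          rw [mem_range] at hs
          rw [mem_Icc]
          omega
        · intro s hs
          rw [mem_Icc] at hs
          rw [mem_range]
          omega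
        · intro s _
          exact Nat.add_sub_cancel s 1
        · intro s hs
          rw [mem_Icc] at hs
          exact Nat.sub_add_cancel hs.1
        · intro s _
          rfl
      rw [expCoeff, div_eq_iff hn, mul_comm _ ((n : ℝ) + 1), h2, h3]
      refine sum_congr rfl fun s _ => ?_
      have hs : (s : ℕ) < n + 1 := s.2
      rw [ih (n - s) (by omega), points_eq p hp2 (s + 1) (by omega) m]
      congr 3
      omega

lemma haar_eq {l : ℕ} (i : Fin l → ℕ) : haar i = Q282.HL.symm i := rfl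

lemma mean_eq (c : Fin k → ℝ) (i : Fin k → (q : Fin r) → Fin (g q) → ℕ) : mean c i = Pool.Agent.H46.SL.R.meanR c i := rfl

lemma variance_eq (c : Fin k → ℝ) (i : Fin k → (q : Fin r) → Fin (g q) → ℕ) : variance c i = Pool.Agent.H46.SL.R.varR c i := rfl

lemma count_eq (S : Set ℕ) (y : ℕ) : count S y = Pool.Agent.H46.SL.cnt S y := rfl

open Pool.Agent.H46.SL in
lemma pA_eq (i : (q : Fin r) → Fin (g q) → ℕ) (p : ℕ) [Fact p.Prime] (hp2 : p ≠ 2) (u : Fin (R.dim g) → ℤ) :
    R.mono p g i (fun j => (u j : ZMod p)) = ∏ q, ∏ j, coef p (i q j) (R.part u q) := by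
  unfold R.mono Q282.HL.pA coef
  refine prod_congr rfl fun q _ => prod_congr rfl fun j _ => ?_
  rw [expCoeff_eq p hp2 (R.part u q) (i q j)]
  rfl

open Pool.Agent.H46.SL in
lemma ind_eq (p : ℕ) [Fact p.Prime] (hp2 : p ≠ 2) (u : Fin (R.dim g) → ℤ) [Decidable (∀ q, Good p (R.part u q))] :
    R.indR p g (fun j => (u j : ZMod p)) = if ∀ q, Good p (R.part u q) then 1 else 0 := by
  classical
  unfold R.indR
  split_ifs with h
  · apply prod_eq_one
    intro q _
    unfold ind
    rw [if_pos]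
    exact (h q).2
  · push Not at h
    obtain ⟨q, hq⟩ := h
    apply prod_eq_zero (mem_univ q)
    unfold ind
    rw [if_neg]
    intro h'
    exact hq ⟨hp2, h'⟩

open Pool.Agent.H46.SL in
lemma hv_eq (c : Fin k → ℝ) (i : Fin k → (q : Fin r) → Fin (g q) → ℕ) (hr : 0 < r) (p : ℕ) (hp : p.Prime) (u : Fin (R.dim g) → ℤ)
    [Decidable (∀ q, Good p (R.part u q))] :
    R.hvR g c i p u = if ∀ q, Good p (R.part u q) then value c i p (fun q => R.part u q) - mean c i else 0 := by
  have : Fact p.Prime := ⟨hp⟩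
  unfold R.hvR
  by_cases h2 : p = 2
  · rw [dif_neg (fun h => h.2 h2), if_neg]
    intro h
    exact (h ⟨0, hr⟩).1 h2
  · rw [dif_pos ⟨hp, h2⟩, ind_eq p h2 u]
    have e : R.PvR p g c i (fun j => (u j : ZMod p)) = value c i p (fun q => R.part u q) := by
      unfold R.PvR value
      exact sum_congr rfl fun t _ => by rw [pA_eq (i t) p h2 u]
    rw [e, mean_eq]
    split_ifs
    · rw [one_mul]
    · rw [zero_mul]

open Pool.Agent.H46.SL in
lemma deviation_eq (c : Fin k → ℝ) (i : Fin k → (q : Fin r) → Fin (g q) → ℕ) (hr : 0 < r) (S : Set ℕ) (y : ℕ) (u : Fin (R.dim g) → ℤ) :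
    G.DS (R.hvR g c i) S y u = deviation c i S y (fun q => R.part u q) := by
  classical
  unfold G.DS deviation
  rw [show (range (y + 1)).filter (fun p => p.Prime ∧ p ∈ S ∧ ∀ q, Good p (R.part u q)) =
    (PS S y).filter (fun p => ∀ q, Good p (R.part u q)) by
      ext p
      simp only [mem_filter, PS]
      tauto]
  rw [sum_filter]
  apply sum_congr rfl
  intro p hp
  rw [mem_PS] at hp
  exact hv_eq c i hr p hp.2.1 u

/-- Let `r` families of hyperelliptic curves of the genera `g 1, ..., g r` and a test function `P = ∑ c t ∏ a^(q)_{i t q j}` of degree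
`∑ j, i t q j ≤ g q` in the coefficients of the `L`-polynomial of the curve number `q` be given, `P` not of variance `0`
(that is, not constant on `USp(2 g 1) × ... × USp(2 g r)`).  For all `ε > 0` and `0 < δ ≤ 1` there are `A > 0` and `N₀ ≥ 3` such that
for all sets `S` of primes, all `x` with `π_S(x) ≥ N₀` and all boxes of integers `M q j < m q j ≤ M q j + L q j` with sides
`L q j ≥ x ^ (A log log π_S(x))` the following holds for at least `(1 - ε)` of all the points `m` of the box, `π_S(y)` being the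
number of the primes `p ≤ y` in `S` and `V` the variance of `P`:

the sum `D(y)` of `P(x_p) - ∫ P` over the primes `p ≤ y` in `S` of good reduction satisfies
`|D(y)| ≤ (1 + δ) √(2 V π_S(y) log log π_S(y))` for all `y ≤ x` with `π_S(y) ≥ N₀`,
`D(y) ≥ (1 - δ) √(2 V π_S(y) log log π_S(y))` for some `y ≤ x` with `π_S(y) ≥ π_S(x) ^ (1 - δ)`, and
`D(y) ≤ - (1 - δ) √(2 V π_S(y) log log π_S(y))` for some `y ≤ x` with `π_S(y) ≥ π_S(x) ^ (1 - δ)`. -/
theorem result {r k : ℕ} (g : Fin r → ℕ) (c : Fin k → ℝ) (i : Fin k → (q : Fin r) → Fin (g q) → ℕ)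
    (hi : ∀ t q, ∑ j, i t q j ≤ g q) (hV : 0 < variance c i) (ε δ : ℝ) (hε : 0 < ε) (hδ : 0 < δ) (hδ1 : δ ≤ 1) :
    ∃ A N₀ : ℝ, 0 < A ∧ 3 ≤ N₀ ∧
    ∀ (S : Set ℕ) (x : ℕ) (M : (q : Fin r) → Fin (2 * g q + 1) → ℤ) (L : (q : Fin r) → Fin (2 * g q + 1) → ℕ),
      N₀ ≤ count S x → (∀ q j, (x : ℝ) ^ (A * Real.log (Real.log (count S x))) ≤ L q j) →
      (1 - ε) * ∏ q, ∏ j, (L q j : ℝ) ≤
        (Nat.card {m : (q : Fin r) → Fin (2 * g q + 1) → ℤ //
          (∀ q j, M q j < m q j ∧ m q j ≤ M q j + L q j) ∧ LIL c i δ N₀ S x m} : ℝ) := by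
  classical
  have hr : 0 < r := by
    rcases Nat.eq_zero_or_pos r with h | h
    · subst h
      exfalso
      have : variance c i = 0 := by
        unfold variance mean
        simp only [univ_eq_empty, prod_empty, mul_one]
        rw [← sum_mul_sum]
        ring
      linarith
    · exact h
  obtain ⟨A, N₀, hA, hN₀, H⟩ := Pool.Agent.H46.SL.R.mainR c i hi hV ε δ hε hδ hδ1
  refine ⟨A, N₀, hA, hN₀, ?_⟩
  intro S x M L hx hL
  obtain ⟨M', hM'⟩ : ∃ M' : Fin (Pool.Agent.H46.SL.R.dim g) → ℤ, M' = (Pool.Agent.H46.SL.R.partEquiv g ℤ).symm M := ⟨_, rfl⟩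
  obtain ⟨L', hL'⟩ : ∃ L' : Fin (Pool.Agent.H46.SL.R.dim g) → ℕ, L' = (Pool.Agent.H46.SL.R.partEquiv g ℕ).symm L := ⟨_, rfl⟩
  have hpM : ∀ q j, M q j = M' (finSigmaFinEquiv ⟨q, j⟩) := by
    intro q j
    have : Pool.Agent.H46.SL.R.partEquiv g ℤ M' = M := by rw [hM', Equiv.apply_symm_apply]
    rw [← this]
    rfl
  have hpL : ∀ q j, L q j = L' (finSigmaFinEquiv ⟨q, j⟩) := by
    intro q j
    have : Pool.Agent.H46.SL.R.partEquiv g ℕ L' = L := by rw [hL', Equiv.apply_symm_apply]
    rw [← this]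
    rfl
  have H1 := H S x M' L' hx (fun j => by
    have h1 := hL (finSigmaFinEquiv.symm j).1 (finSigmaFinEquiv.symm j).2
    rw [hpL] at h1
    have h2 : finSigmaFinEquiv (⟨(finSigmaFinEquiv.symm j).1, (finSigmaFinEquiv.symm j).2⟩ : (q : Fin r) × Fin (2 * g q + 1)) = j :=
      Equiv.apply_symm_apply finSigmaFinEquiv j
    rw [h2] at h1
    exact h1)
  have hcard : ((Pool.Agent.K4H16.CG.box M' L').card : ℝ) = ∏ q, ∏ j, (L q j : ℝ) := by
    unfold Pool.Agent.K4H16.CG.box
    rw [Fintype.card_piFinset]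
    push_cast
    rw [← Fintype.prod_sigma' (fun q j => (L q j : ℝ))]
    symm
    apply Fintype.prod_equiv finSigmaFinEquiv
    rintro ⟨q, j⟩
    rw [Int.card_Ioc, hpL q j]
    simp
  rw [← hcard]
  refine H1.trans (le_of_eq ?_)
  congr 1
  rw [← Nat.card_eq_finsetCard]
  apply Nat.card_congr
  refine (Pool.Agent.H46.SL.R.partEquiv g ℤ).subtypeEquiv ?_
  intro u
  rw [mem_filter]
  have hm : u ∈ Pool.Agent.K4H16.CG.box M' L' ↔ ∀ q j, M q j < Pool.Agent.H46.SL.R.partEquiv g ℤ u q j ∧
      Pool.Agent.H46.SL.R.partEquiv g ℤ u q j ≤ M q j + L q j := by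
    unfold Pool.Agent.K4H16.CG.box
    rw [Fintype.mem_piFinset]
    constructor
    · intro h q j
      have h1 := h (finSigmaFinEquiv ⟨q, j⟩)
      rw [mem_Ioc, ← hpM, ← hpL] at h1
      exact h1
    · intro h j
      have h1 := h (finSigmaFinEquiv.symm j).1 (finSigmaFinEquiv.symm j).2
      have h2 : finSigmaFinEquiv (⟨(finSigmaFinEquiv.symm j).1, (finSigmaFinEquiv.symm j).2⟩ : (q : Fin r) × Fin (2 * g q + 1)) = j :=
        Equiv.apply_symm_apply finSigmaFinEquiv j
      rw [hpM, hpL] at h1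
      have h3 : Pool.Agent.H46.SL.R.partEquiv g ℤ u (finSigmaFinEquiv.symm j).1 (finSigmaFinEquiv.symm j).2 =
        u (finSigmaFinEquiv ⟨(finSigmaFinEquiv.symm j).1, (finSigmaFinEquiv.symm j).2⟩) := rfl
      rw [h3, h2] at h1
      rw [mem_Ioc]
      exact h1
  rw [hm]
  apply and_congr Iff.rfl
  have hd := fun y => deviation_eq c i hr S y u
  unfold LIL bound
  simp only [hd]
  have e : (fun q => Pool.Agent.H46.SL.R.part u q) = Pool.Agent.H46.SL.R.partEquiv g ℤ u := rfl
  rw [e]
  constructor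
  · rintro ⟨h1, ⟨y, hy, h2, h3⟩, ⟨y', hy', h4, h5⟩⟩
    exact ⟨h1, ⟨y, hy, h2, h3⟩, ⟨y', hy', h4, by
      have h6 := neg_le_neg h5
      rw [neg_neg] at h6
      exact h6⟩⟩
  · rintro ⟨h1, ⟨y, hy, h2, h3⟩, ⟨y', hy', h4, h5⟩⟩
    exact ⟨h1, ⟨y, hy, h2, h3⟩, ⟨y', hy', h4, by
      have h6 := neg_le_neg h5
      rw [neg_neg] at h6
      exact h6⟩⟩

end Pool.Agent.Results.MP_c481b3_nt.IteratedLogarithm
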