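import Pool.Agent.H60.MP.Final

/-! # The Sato-Tate law for most products of many abelian varieties

Problem MP_c481b3_nt (the Sato-Tate conjecture for abelian varieties). -/

set_option autoImplicit false

namespace Pool.Agent.Results.MP_c481b3_nt.MostLargeProducts

open MeasureTheory Filter Topology NumberField IsDedekindDomain
open Pool.Agent.H60.MP (av primes PairLaw Statistics Follows)

/-- Let `J_1, …, J_k` be finite families of abelian varieties `A_{j,a}`, `a ∈ J_j`, over the number field `K`, with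
the Frobenius classes `x_{j,a}(v)` in compact spaces `Z_{j,a}` (the spaces of conjugacy classes of the Sato-Tate
groups) with the probability measures `μ_{j,a}`. The Sato-Tate law is assumed for the pairs of members of different
families only. Let `f_{j,a} = (f_{j,a,1}, …, f_{j,a,m})` be orthonormal continuous functions with mean `0` on
`Z_{j,a}`, `|f| ≤ B`, the averages of which over each family are small in mean square, and `∑ b_j² = 1`,
`|b_j| ≤ δ`. Then for all large `N` and all sets `P` of at least `κ π_K(N)` primes of norm at most `N`, for all but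
at most `ε |J_1| ⋯ |J_k|` of the products `A_{1,ω_1} × ⋯ × A_{k,ω_k}` the law over `P` of
`∑_j b_j f_{j,ω_j}(x_{j,ω_j}(v))` is within `ε` of the law predicted by the Sato-Tate conjecture for the product. -/
theorem result (m : ℕ) (ε B κ : ℝ) (hε : 0 < ε) (hκ : 0 < κ) : ∃ δ : ℝ, 0 < δ ∧
    ∀ (K : Type) [Field K] [NumberField K] (k : ℕ) (J : Fin k → Type) [∀ j, Fintype (J j)]
      [∀ j, Nonempty (J j)] (Z : ∀ j, J j → Type) [∀ j a, TopologicalSpace (Z j a)]
      [∀ j a, CompactSpace (Z j a)] [∀ j a, T2Space (Z j a)] [∀ j a, SecondCountableTopology (Z j a)]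
      [∀ j a, MeasurableSpace (Z j a)] [∀ j a, BorelSpace (Z j a)] (μ : ∀ j a, Measure (Z j a))
      [∀ j a, IsProbabilityMeasure (μ j a)] (x : ∀ j a, HeightOneSpectrum (𝓞 K) → Z j a)
      (f : ∀ j a, Fin m → Z j a → ℝ) (b : Fin k → ℝ),
    (∀ i j, i ≠ j → ∀ a c, PairLaw (x i a) (x j c) (μ i a) (μ j c)) →
    (∀ j a, Statistics B (μ j a) (f j a)) →
    (∀ j p, ∀ᶠ N in atTop, av (primes K N) (fun v => ((∑ a, f j a p (x j a v)) / Fintype.card (J j)) ^ 2) ≤ δ) →
    ∑ j, b j ^ 2 = 1 → (∀ j, |b j| ≤ δ) →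
    (∀ᶠ N in atTop, ∀ P : Finset (HeightOneSpectrum (𝓞 K)), P ⊆ primes K N →
      κ * (primes K N).card ≤ P.card →
      ({ω : ∀ j, J j | ¬ Follows ε (fun j => μ j (ω j)) (fun j => x j (ω j)) (fun j => f j (ω j)) b P}.ncard : ℝ) ≤
        ε * ∏ j, (Fintype.card (J j) : ℝ)) ∧
    ∃ E : Set (∀ j, J j), (E.ncard : ℝ) ≤ ε * ∏ j, (Fintype.card (J j) : ℝ) ∧
      ∃ᶠ N in atTop, ∀ ω : ∀ j, J j, ω ∉ E →
        Follows ε (fun j => μ j (ω j)) (fun j => x j (ω j)) (fun j => f j (ω j)) b (primes K N) := by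
  obtain ⟨δ, hδ, h⟩ := Pool.Agent.H60.MP.most_products m ε B (min κ 1) hε (lt_min hκ one_pos)
  refine ⟨δ, hδ, ?_⟩
  intro K _ _ k J _ _ Z _ _ _ _ _ _ μ _ x f b h1 h2 h3 h4 h5
  have hmain := h K k J Z μ x f b h1 h2 h3 h4 h5
  have key : ∀ᶠ N in atTop, ∀ P : Finset (HeightOneSpectrum (𝓞 K)), P ⊆ primes K N →
      min κ 1 * (primes K N).card ≤ P.card →
      ({ω : ∀ j, J j | ¬ Follows ε (fun j => μ j (ω j)) (fun j => x j (ω j)) (fun j => f j (ω j)) b P}.ncard : ℝ) ≤
        ε * ∏ j, (Fintype.card (J j) : ℝ) := by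
    filter_upwards [hmain] with N hN
    intro P hP hc
    refine le_trans (le_of_eq ?_) (hN P hP hc)
    congr 2
    ext ω
    simp only [Set.mem_ofPred_eq]
    unfold Follows
    push Not
    refine exists_congr fun u => exists_congr fun t => and_congr_right fun _ => ?_
    constructor
    · intro h
      by_cases h6 : |Pool.Agent.H60.MP.prop P (fun v => ∑ j, b j * ∑ p, u p * f j (ω j) p (x j (ω j) v) ≤ t) -
          (Measure.pi fun j => μ j (ω j)).real {z | ∑ j, b j * ∑ p, u p * f j (ω j) p (z j) ≤ t}| ≤ ε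
      · exact Or.inr (h h6)
      · exact Or.inl (not_le.1 h6)
    · rintro (h | h)
      · intro h6
        exact absurd h6 (not_le.2 h)
      · intro _
        exact h
  refine ⟨?_, ?_⟩
  · filter_upwards [key] with N hN
    intro P hP hc
    refine hN P hP (le_trans ?_ hc)
    exact mul_le_mul_of_nonneg_right (min_le_left _ _) (Nat.cast_nonneg _)
  · by_contra hcon
    push Not at hcon
    have hall : ∀ᶠ N in atTop, ∀ E : Set (∀ j, J j), (E.ncard : ℝ) ≤ ε * ∏ j, (Fintype.card (J j) : ℝ) →
        ∃ ω : ∀ j, J j, ω ∉ E ∧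
          ¬ Follows ε (fun j => μ j (ω j)) (fun j => x j (ω j)) (fun j => f j (ω j)) b (primes K N) := by
      rw [eventually_all]
      intro E
      by_cases hE : (E.ncard : ℝ) ≤ ε * ∏ j, (Fintype.card (J j) : ℝ)
      · have := hcon E hE
        filter_upwards [this] with N hN _
        exact hN
      · exact Eventually.of_forall fun N h => absurd h hE
    obtain ⟨N, hN1, hN2⟩ := (key.and hall).exists
    have hc : min κ 1 * (primes K N).card ≤ ((primes K N).card : ℝ) :=
      mul_le_of_le_one_left (Nat.cast_nonneg _) (min_le_right _ _)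
    obtain ⟨ω, hω, hbad⟩ := hN2 _ (hN1 (primes K N) (Finset.Subset.refl _) hc)
    exact hω hbad

end Pool.Agent.Results.MP_c481b3_nt.MostLargeProducts
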